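import Pool.Agent.Y648.CS.StmA

/-!
# The subspaces of the two phases, in terms of the matrix
-/

set_option autoImplicit false
set_option linter.all false

namespace Pool.Agent.Y529.CS

open Pool.Agent.NPC Pool.Agent.H558R2 Pool.Agent.H622R3.SM Pool.Agent.Y648.CS

theorem sum_two (m : ℕ) (F : ℕ → ℝ) :
    ∑ c ∈ Finset.range (m + m), F c = ∑ c : Fin m, (F c + F (m + c)) := by
  rw [Finset.sum_range, Fin.sum_univ_add, ← Finset.sum_add_distrib]
  rfl

theorem Xc0 (m : ℕ) : Xc m (dr0 m) = Finset.range (m + m) := by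
  unfold Xc dr0
  apply Finset.filter_true_of_mem
  intro c hc
  rw [List.getD_eq_getElem _ _ (by simpa using hc)]
  simp

theorem mem_Xc1 (m : ℕ) (B : List Bool) (c : ℕ) :
    c ∈ Xc m (dr1 m B) ↔ c < m ∧ B.getD c false = true := by
  unfold Xc dr1
  rw [Finset.mem_filter, Finset.mem_range]
  constructor
  · rintro ⟨h1, h2⟩
    rw [List.getD_eq_getElem _ _ (by simpa using h1)] at h2
    simpa using h2
  · rintro ⟨h1, h2⟩
    refine ⟨by omega, ?_⟩
    rw [List.getD_eq_getElem _ _ (by simp; omega)]
    simpa [h1] using h2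

theorem Xc1 (m : ℕ) (B : List Bool) :
    Xc m (dr1 m B) = (Finset.range m).filter fun c => B.getD c false = true := by
  ext c
  rw [mem_Xc1, Finset.mem_filter, Finset.mem_range]

/-- The restriction to the columns used in the second phase. -/
def rs {m : ℕ} (B : List Bool) (x : ℕ → ℝ) : Fin m → ℝ := fun c =>
  if B.getD c false = true then x c else 0

theorem sum_Xc1 (m : ℕ) (B : List Bool) (F : ℕ → ℝ) (x : ℕ → ℝ) :
    ∑ c ∈ Xc m (dr1 m B), F c * x c = ∑ c : Fin m, F c * rs B x c := by
  rw [Xc1, Finset.sum_filter, Finset.sum_range]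
  refine Finset.sum_congr rfl fun c _ => ?_
  unfold rs
  split_ifs <;> simp

theorem sum_Acs (m : ℕ) (drop : List Bool) (F : ℕ → ℝ) :
    ∑ c ∈ Acs m drop, F c = F (m + m) + (F (m + m + 1) + ∑ c ∈ Xc m drop, F c) := by
  have h : ∀ c ∈ Xc m drop, c < m + m := fun c hc => by
    unfold Xc at hc
    rw [Finset.mem_filter, Finset.mem_range] at hc
    exact hc.1
  unfold Acs
  rw [Finset.sum_insert, Finset.sum_insert]
  · intro hc
    have := h _ hc
    omega
  · intro hc
    rw [Finset.mem_insert] at hc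
    rcases hc with hc | hc
    · omega
    · have := h _ hc
      omega

variable {m n : ℕ} (A : Fin m → Fin n → ℝ) (b : Fin m → ℝ)

theorem start0 (c : Fin m) (i : Fin n) : start A b [0, (c : ℕ), (i : ℕ)] = A c i := by
  simp [start]

theorem start1 (c : Fin m) : start A b [1, (c : ℕ)] = b c := by
  simp [start]

theorem Rb_l (p : ℕ) (i : Fin n) (c : Fin m) : Rb m n p (start A b) i c = A c i := by
  unfold Rb
  rw [if_pos c.2, if_pos i.2, start0]

theorem Rb_r (p : ℕ) (i : Fin n) (c : Fin m) :
    Rb m n p (start A b) i (m + (c : ℕ)) = - A c i := by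
  unfold Rb
  have h1 := c.2
  rw [if_neg (by omega), if_pos (by omega), if_pos i.2, Nat.add_sub_cancel_left, start0]

theorem mem_Lsp0 (x : ℕ → ℝ) : x ∈ Lsp m n 0 (start A b) (dr0 m) ↔
    (∀ i : Fin n, ∑ c : Fin m, A c i * (x c - x (m + c)) = 0) ∧
    x (m + m) = ∑ c : Fin m, x (m + c) ∧ x (m + m + 1) = ∑ c : Fin m, (x c + x (m + c)) := by
  have key : x ∈ Lsp m n 0 (start A b) (dr0 m) ↔
      ∀ i < n + 2, ∑ c ∈ Acs m (dr0 m), Rb m n 0 (start A b) i c * x c = 0 := Iff.rfl
  rw [key]
  have e1 : ∀ i : Fin n, ∑ c ∈ Acs m (dr0 m), Rb m n 0 (start A b) i c * x c =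
      ∑ c : Fin m, A c i * (x c - x (m + c)) := by
    intro i
    have hi := i.2
    rw [sum_Acs, Xc0, sum_two]
    have z1 : Rb m n 0 (start A b) i (m + m) = 0 := by
      unfold Rb
      rw [if_neg (by omega), if_neg (by omega), if_pos rfl, if_neg (by omega)]
    have z2 : Rb m n 0 (start A b) i (m + m + 1) = 0 := by
      unfold Rb
      rw [if_neg (by omega), if_neg (by omega), if_neg (by omega), if_pos rfl, if_neg (by omega)]
    rw [z1, z2, zero_mul, zero_mul, zero_add, zero_add]
    refine Finset.sum_congr rfl fun c _ => ?_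
    rw [Rb_l, Rb_r]
    ring
  have e2 : ∑ c ∈ Acs m (dr0 m), Rb m n 0 (start A b) n c * x c =
      - x (m + m) + ∑ c : Fin m, x (m + c) := by
    rw [sum_Acs, Xc0, sum_two]
    have z1 : Rb m n 0 (start A b) n (m + m) = -1 := by
      unfold Rb
      rw [if_neg (by omega), if_neg (by omega), if_pos rfl, if_pos rfl]
    have z2 : Rb m n 0 (start A b) n (m + m + 1) = 0 := by
      unfold Rb
      rw [if_neg (by omega), if_neg (by omega), if_neg (by omega), if_pos rfl, if_neg (by omega)]
    rw [z1, z2, zero_mul, zero_add, neg_one_mul]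
    congr 1
    refine Finset.sum_congr rfl fun c _ => ?_
    have hc := c.2
    have z3 : Rb m n 0 (start A b) n (c : ℕ) = 0 := by
      unfold Rb
      rw [if_pos (by omega), if_neg (by omega), if_pos rfl, if_pos rfl]
    have z4 : Rb m n 0 (start A b) n (m + (c : ℕ)) = 1 := by
      unfold Rb
      rw [if_neg (by omega), if_pos (by omega), if_neg (by omega), if_pos rfl, if_pos rfl]
    rw [z3, z4]
    ring
  have e3 : ∑ c ∈ Acs m (dr0 m), Rb m n 0 (start A b) (n + 1) c * x c =
      - x (m + m + 1) + ∑ c : Fin m, (x c + x (m + c)) := by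
    rw [sum_Acs, Xc0, sum_two]
    have z1 : Rb m n 0 (start A b) (n + 1) (m + m) = 0 := by
      unfold Rb
      rw [if_neg (by omega), if_neg (by omega), if_pos rfl, if_neg (by omega)]
    have z2 : Rb m n 0 (start A b) (n + 1) (m + m + 1) = -1 := by
      unfold Rb
      rw [if_neg (by omega), if_neg (by omega), if_neg (by omega), if_pos rfl, if_pos rfl]
    rw [z1, z2, zero_mul, zero_add, neg_one_mul]
    congr 1
    refine Finset.sum_congr rfl fun c _ => ?_
    have hc := c.2
    have z3 : Rb m n 0 (start A b) (n + 1) (c : ℕ) = 1 := by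
      unfold Rb
      rw [if_pos (by omega), if_neg (by omega), if_neg (by omega)]
    have z4 : Rb m n 0 (start A b) (n + 1) (m + (c : ℕ)) = 1 := by
      unfold Rb
      rw [if_neg (by omega), if_pos (by omega), if_neg (by omega), if_neg (by omega)]
    rw [z3, z4]
    ring
  constructor
  · intro h
    refine ⟨fun i => ?_, ?_, ?_⟩
    · rw [← e1]
      exact h i (by have := i.2; omega)
    · have := h n (by omega)
      rw [e2] at this
      linarith
    · have := h (n + 1) (by omega)
      rw [e3] at this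
      linarith
  · rintro ⟨h1, h2, h3⟩ i hi
    by_cases hin : i < n
    · have := e1 ⟨i, hin⟩
      rw [h1] at this
      exact this
    by_cases hin' : i = n
    · subst hin'
      rw [e2]
      linarith
    · have : i = n + 1 := by omega
      subst this
      rw [e3]
      linarith

theorem mem_Lsp1 (B : List Bool) (x : ℕ → ℝ) : x ∈ Lsp m n 1 (start A b) (dr1 m B) ↔
    (∀ i : Fin n, ∑ c : Fin m, A c i * rs B x c = 0) ∧
    x (m + m) = - ∑ c : Fin m, b c * rs B x c ∧ x (m + m + 1) = ∑ c : Fin m, rs B x c := by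
  have key : x ∈ Lsp m n 1 (start A b) (dr1 m B) ↔
      ∀ i < n + 2, ∑ c ∈ Acs m (dr1 m B), Rb m n 1 (start A b) i c * x c = 0 := Iff.rfl
  rw [key]
  have e1 : ∀ i : Fin n, ∑ c ∈ Acs m (dr1 m B), Rb m n 1 (start A b) i c * x c =
      ∑ c : Fin m, A c i * rs B x c := by
    intro i
    have hi := i.2
    rw [sum_Acs, sum_Xc1]
    have z1 : Rb m n 1 (start A b) i (m + m) = 0 := by
      unfold Rb
      rw [if_neg (by omega), if_neg (by omega), if_pos rfl, if_neg (by omega)]
    have z2 : Rb m n 1 (start A b) i (m + m + 1) = 0 := by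
      unfold Rb
      rw [if_neg (by omega), if_neg (by omega), if_neg (by omega), if_pos rfl, if_neg (by omega)]
    rw [z1, z2, zero_mul, zero_mul, zero_add, zero_add]
    refine Finset.sum_congr rfl fun c _ => ?_
    rw [Rb_l]
  have e2 : ∑ c ∈ Acs m (dr1 m B), Rb m n 1 (start A b) n c * x c =
      - x (m + m) + - ∑ c : Fin m, b c * rs B x c := by
    rw [sum_Acs, sum_Xc1]
    have z1 : Rb m n 1 (start A b) n (m + m) = -1 := by
      unfold Rb
      rw [if_neg (by omega), if_neg (by omega), if_pos rfl, if_pos rfl]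
    have z2 : Rb m n 1 (start A b) n (m + m + 1) = 0 := by
      unfold Rb
      rw [if_neg (by omega), if_neg (by omega), if_neg (by omega), if_pos rfl, if_neg (by omega)]
    rw [z1, z2, zero_mul, zero_add, neg_one_mul, ← Finset.sum_neg_distrib]
    congr 1
    refine Finset.sum_congr rfl fun c _ => ?_
    have hc := c.2
    have z3 : Rb m n 1 (start A b) n (c : ℕ) = - b c := by
      unfold Rb
      rw [if_pos (by omega), if_neg (by omega), if_pos rfl, if_neg (by omega), start1]
    rw [z3]
    ring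
  have e3 : ∑ c ∈ Acs m (dr1 m B), Rb m n 1 (start A b) (n + 1) c * x c =
      - x (m + m + 1) + ∑ c : Fin m, rs B x c := by
    rw [sum_Acs, sum_Xc1]
    have z1 : Rb m n 1 (start A b) (n + 1) (m + m) = 0 := by
      unfold Rb
      rw [if_neg (by omega), if_neg (by omega), if_pos rfl, if_neg (by omega)]
    have z2 : Rb m n 1 (start A b) (n + 1) (m + m + 1) = -1 := by
      unfold Rb
      rw [if_neg (by omega), if_neg (by omega), if_neg (by omega), if_pos rfl, if_pos rfl]
    rw [z1, z2, zero_mul, zero_add, neg_one_mul]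
    congr 1
    refine Finset.sum_congr rfl fun c _ => ?_
    have hc := c.2
    have z3 : Rb m n 1 (start A b) (n + 1) (c : ℕ) = 1 := by
      unfold Rb
      rw [if_pos (by omega), if_neg (by omega), if_neg (by omega)]
    rw [z3]
    ring
  constructor
  · intro h
    refine ⟨fun i => ?_, ?_, ?_⟩
    · rw [← e1]
      exact h i (by have := i.2; omega)
    · have := h n (by omega)
      rw [e2] at this
      linarith
    · have := h (n + 1) (by omega)
      rw [e3] at this
      linarith
  · rintro ⟨h1, h2, h3⟩ i hi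
    by_cases hin : i < n
    · have := e1 ⟨i, hin⟩
      rw [h1] at this
      exact this
    by_cases hin' : i = n
    · subst hin'
      rw [e2]
      linarith
    · have : i = n + 1 := by omega
      subst this
      rw [e3]
      linarith

/-- Vectors on `ℕ` from their parts. -/
def mk2 {m : ℕ} (u v : Fin m → ℝ) (q nu : ℝ) : ℕ → ℝ := fun c =>
  if h : c < m then u ⟨c, h⟩
  else if h : c - m < m then v ⟨c - m, h⟩
  else if c = m + m then q else nu

@[simp] theorem mk2_l (u v : Fin m → ℝ) (q nu : ℝ) (c : Fin m) : mk2 u v q nu c = u c := by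
  unfold mk2
  rw [dif_pos c.2]

@[simp] theorem mk2_r (u v : Fin m → ℝ) (q nu : ℝ) (c : Fin m) :
    mk2 u v q nu (m + (c : ℕ)) = v c := by
  unfold mk2
  rw [dif_neg (by omega), dif_pos (by have := c.2; omega)]
  congr 1
  apply Fin.ext
  show m + (c : ℕ) - m = c
  omega

@[simp] theorem mk2_q (u v : Fin m → ℝ) (q nu : ℝ) : mk2 u v q nu (m + m) = q := by
  unfold mk2
  rw [dif_neg (by omega), dif_neg (by omega), if_pos rfl]

@[simp] theorem mk2_nu (u v : Fin m → ℝ) (q nu : ℝ) : mk2 u v q nu (m + m + 1) = nu := by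
  unfold mk2
  rw [dif_neg (by omega), dif_neg (by omega), if_neg (by omega)]

theorem lt_cases {m c : ℕ} (h : c < m + m) :
    (∃ d : Fin m, c = d) ∨ ∃ d : Fin m, c = m + (d : ℕ) := by
  by_cases h1 : c < m
  · exact Or.inl ⟨⟨c, h1⟩, rfl⟩
  · exact Or.inr ⟨⟨c - m, by omega⟩, by simp; omega⟩

end Pool.Agent.Y529.CS
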